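import Pool.Agent.Helper74.LL.GoalsH

/-! Packet LL-UA1 (MP_cc6379_al): type A, first case. -/

set_option autoImplicit false

open LaurentPolynomial Pool.Agent.Helper15.RA Pool.Agent.Helper45.AM Pool.Agent.Helper74.LL

noncomputable section

namespace Pool.Agent.Helper85.LL

theorem t (kd1 : KD1) (kd2 : KD2) (hwt : HWT) (hw0 : HW0) (ra1 : RA1) (ulow : ULOW) : UA1 := by
  intro S W H _ _ _ X M n a b c x y hId hN0 hN1 hab hac hbc hx hy hR hL hn hna
  obtain ⟨lg, -, -, -, hw⟩ := hwt S W H X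
  obtain ⟨-, -, hal⟩ := hw0 S W H X
  obtain ⟨k1, k2, -, -, -, k6, -, -, -, -, kcom⟩ := kd2 S W X.M X.cs
  have hsym : ∀ i j, X.M i j = X.M j i := fun i j => X.M.symmetric i j
  have hbc' : b ≠ c := by
    rintro rfl
    rw [X.M.diagonal] at hbc
    omega
  have hMac : X.M a c ≠ 2 := fun h => hab (X.mat c a b (by rw [hsym]; exact h) (by rw [hsym]; exact hbc))
  have lc1 : ∀ i, X.cs.length (X.cs.simple i) = 1 := fun i => X.cs.length_simple i
  -- the left factor
  have hxa : X.cs.length (x * X.cs.simple a) = X.cs.length x + 1 := hx a (by simp)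
  have hRa : X.cs.IsRightDescent (x * X.cs.simple a) a := by
    rw [X.cs.isRightDescent_iff, mul_assoc, X.cs.simple_mul_simple_self, mul_one, hxa]
  obtain ⟨⟨x5, hx5, hx5e, hx5l⟩, -, -⟩ := k1 a c hac (X.fin a c) _ hRa hR
  -- the right factor
  have hby : X.cs.length (X.cs.simple b * y) = X.cs.length y + 1 := hy b (by simp)
  have hbby : X.cs.simple b * (X.cs.simple b * y) = y := by
    rw [← mul_assoc, X.cs.simple_mul_simple_self, one_mul]
  have hLb : X.cs.IsLeftDescent (X.cs.simple b * y) b := by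
    rw [X.cs.isLeftDescent_iff, hbby, hby]
  obtain ⟨-, hcy, -⟩ := k2 b c hbc' (X.fin b c) _ hLb hL
  rw [hbby] at hcy
  set y5 := X.cs.simple c * y with hy5
  have hy5e : X.cs.simple c * y5 = y := by
    rw [hy5, ← mul_assoc, X.cs.simple_mul_simple_self, one_mul]
  have hy5l : X.cs.length y5 + 1 = X.cs.length y := by
    rw [X.cs.isLeftDescent_iff] at hcy
    exact hcy
  have hncy5 : ¬ X.cs.IsLeftDescent y5 c := by
    rw [X.cs.not_isLeftDescent_iff, hy5e]
    omega
  have hnby5 : ¬ X.cs.IsLeftDescent y5 b := by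
    intro h
    have h1 := k6 c b y5 (by rw [hsym]; exact hbc) hncy5 h
    rw [hy5e, X.cs.isLeftDescent_iff] at h1
    omega
  have hXL : XL X.cs {b, c} y5 := by
    intro i hi
    rcases hi with rfl | hi
    · exact (X.cs.not_isLeftDescent_iff).1 hnby5
    · rw [Set.mem_singleton_iff] at hi
      subst hi
      exact (X.cs.not_isLeftDescent_iff).1 hncy5
  have hx5a : x5 * w0 X.cs a c * X.cs.simple a = x := by
    rw [← hx5e, mul_assoc, X.cs.simple_mul_simple_self, mul_one]
  obtain ⟨-, hra⟩ := ra1 S W X.M X.cs lg a b c x5 y5 hab hac hbc hx5 (by rw [hx5a]; exact hx) hXL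
  obtain ⟨hr1, hr2⟩ := hra hna
  -- lengths
  have e1 : X.cs.length (x5 * w0 X.cs a c) = X.cs.length x5 + X.M a c := by rw [← hx5e]; exact hx5l
  have e2 : X.cs.length (x5 * w0 X.cs a c * X.cs.simple c) + 1 =
      X.cs.length (x5 * w0 X.cs a c) := by
    rw [← hx5e]
    exact (X.cs.isRightDescent_iff).1 hR
  have e2' : x5 * (w0 X.cs a c * X.cs.simple c) = x5 * w0 X.cs a c * X.cs.simple c :=
    (mul_assoc _ _ _).symm
  rw [e2'] at hr1
  have e3 : X.cs.length (X.cs.simple b * y5) = X.cs.length y5 + 1 :=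
    (X.cs.not_isLeftDescent_iff).1 hnby5
  have e4 : X.cs.simple b * y = X.cs.simple c * (X.cs.simple b * y5) := by
    rw [← mul_assoc, ← kcom b c hbc, mul_assoc, hy5e]
  -- products
  have p1 : X.D.t (X.cs.simple b * y) = X.D.t (X.cs.simple c) * X.D.t (X.cs.simple b * y5) := by
    rw [X.D.mul _ _ (by rw [← e4, hby, lc1, e3]; omega), ← e4]
  have p2 : X.D.t (x5 * w0 X.cs a c) * X.D.t (X.cs.simple b * y5) =
      X.D.t (x5 * w0 X.cs a c * (X.cs.simple b * y5)) :=
    X.D.mul _ _ (by rw [hr2, e1, e3]; omega)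
  have p3 : X.D.t (x5 * w0 X.cs a c * X.cs.simple c) * X.D.t (X.cs.simple b * y5) =
      X.D.t (x5 * w0 X.cs a c * X.cs.simple c * (X.cs.simple b * y5)) :=
    X.D.mul _ _ (by rw [hr1, e3]; omega)
  by_cases hge : X.Ge (M + 1) (w0 X.cs a c)
  · -- low level
    refine ulow S W H X M n a b c x x5 y hId hN0 hN1 hab hac hbc' hMac hx hy hx5 hx5e hn hge ?_
    have p4 : X.D.t (x5 * w0 X.cs a c * X.cs.simple c) * X.D.t (X.cs.simple c) =
        X.D.t (x5 * w0 X.cs a c) := by
      rw [X.D.mul _ _ (by rw [mul_assoc, X.cs.simple_mul_simple_self, mul_one, lc1]; omega),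
        mul_assoc, X.cs.simple_mul_simple_self, mul_one]
    rw [e2', p1, ← mul_assoc, p4, p2]
    exact TD.LP.t M _
  · -- high level
    obtain ⟨hwL, hLab, -⟩ := hw a c hac
    obtain ⟨hal1, -⟩ := hal a c hac
    have hpar : w0 X.cs a c ∈ par X.cs {a, c} :=
      (kd1 S W X.M X.cs a c hac (X.fin a c)).1.1
    have hα : X.α (w0 X.cs a c) ≤ M := by
      by_contra hcon
      push Not at hcon
      exact hge ⟨1, w0 X.cs a c, 1, {a, c}, Or.inr ⟨a, c, rfl⟩, hpar, by rw [one_mul, mul_one],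
        by rw [X.cs.length_one]; omega, hcon⟩
    rw [hal1] at hα
    have h6a := hwL hMac a
    have h6b := hwL hMac b
    have h6c := hwL hMac c
    obtain ⟨-, hLab, -⟩ := hw a b hab
    have hl2 : X.cs.length (X.cs.simple a * X.cs.simple b) = 2 :=
      (kd1 S W X.M X.cs a b hab (X.fin a b)).2.2.2.2.2.2.2.2.1
    have q1 : X.D.t x * X.D.t (X.cs.simple a * X.cs.simple b) * X.D.t y =
        X.D.t (x * X.cs.simple a) * X.D.t (X.cs.simple b * y) := by
      rw [← X.D.mul (X.cs.simple a) (X.cs.simple b) (by rw [hl2, lc1, lc1]),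
        ← X.D.mul x (X.cs.simple a) (by rw [hxa, lc1]),
        ← X.D.mul (X.cs.simple b) y (by rw [hby, lc1]; omega)]
      simp only [mul_assoc]
    obtain ⟨-, -, -, -, hq, -⟩ := g_h1 S W H X.M X.cs X.L X.D.toHecke0
    have q2 : X.D.t (x5 * w0 X.cs a c) * X.D.t (X.cs.simple c) =
        xi (X.L (X.cs.simple c)) • X.D.t (x5 * w0 X.cs a c) +
          X.D.t (x5 * w0 X.cs a c * X.cs.simple c) := hq c (x5 * w0 X.cs a c) e2
    rw [q1, hx5e, p1, ← mul_assoc, q2, add_mul, smul_mul_assoc, p2, p3]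
    have hm : (X.L (X.cs.simple c) : ℤ) + 1 ≤
        max 0 ((M : ℤ) - X.L (X.cs.simple a * X.cs.simple b)) := by
      rw [hLab]
      refine le_trans ?_ (le_max_right _ _)
      push_cast
      omega
    refine TD.LP.add ?_ ?_
    · exact TD.LP.smul_xi (TD.LP.t M _) hm
    · exact TD.LP.mono (TD.LP.t M _) (le_trans (by omega) hm)

end Pool.Agent.Helper85.LL
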